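import Pool.Agent.R550.CD.Red

/-!
# The chromatic discrepancy threshold problems are coNP-hard
-/

namespace Pool.Agent.Results.MP_e16607_lc.CoNPHard

open Pool.Agent.NPC Pool.Agent.R550.CD

/-- Both languages `L₁ = {⟨G,k⟩ : φ(G) ≤ k}` and `L₂ = {⟨G,k⟩ : φ̂(G) ≤ k}` are `coNP`-hard under
polynomial-time many-one reductions; hence each of them is in `NP` only if `NP = coNP`. -/
theorem result :
    (CoNPHardP L₁ ∧ (InNPP L₁ → ∀ L : Set (List Bool), InNP L ↔ InCoNP L)) ∧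
    (CoNPHardP L₂ ∧ (InNPP L₂ → ∀ L : Set (List Bool), InNP L ↔ InCoNP L)) :=
  ⟨⟨hard₁.toCoNPHardP, np_eq_conp hard₁.toCoNPHardP⟩,
    hard₂.toCoNPHardP, np_eq_conp hard₂.toCoNPHardP⟩

end Pool.Agent.Results.MP_e16607_lc.CoNPHard
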